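import Pool.Agent.W922.SX.Main

/-!
The conjecture `d*(k,n) = 2n - 1` fails for all `k ≥ 3` and `n ≥ 3`: the set `(σG)^m` is the
whole symmetric group on the words of length `n` over `k` letters only if `m ≥ 2n`.

Definitions used (all in `Pool/Agent/W922/SX/Core.lean`): `Word k n = (Fin n → Fin k)`, the
shuffle `shuffle k n` sending `x_1 x_2 ... x_n` to `x_2 ... x_n x_1`, and the exchange group
`exchange k n`, the permutations `g` of the words such that `g w` and `w` have the same first
`n - 1` letters for every word `w`.
-/

set_option autoImplicit false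

open Equiv

namespace Pool.Agent.Results.MP_c2a5b1_lc.AllLargerCases

open Pool.Agent.W922.SX

/-- The set `(σG)^m` of all products `σ g_1 σ g_2 ⋯ σ g_m` with all `g_i` in the exchange group,
where a product of permutations is a composition of maps from right to left. -/
def sigmaG (k n m : ℕ) : Set (Perm (Word k n)) :=
  {π | ∃ g : Fin m → Perm (Word k n), (∀ i, g i ∈ exchange k n) ∧
    (List.ofFn fun i => shuffle k n * g i).prod = π}

/-- The set of all products `σ g_1 σ g_2 ⋯ σ g_m` with all `g_i` in the exchange group, where a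
product of permutations is read from left to right: first `σ`, then `g_1`, then `σ`, then `g_2`,
and so on. -/
def sigmaGLeft (k n m : ℕ) : Set (Perm (Word k n)) :=
  {π | ∃ g : Fin m → Perm (Word k n), (∀ i, g i ∈ exchange k n) ∧
    (List.ofFn fun i => g i * shuffle k n).reverse.prod = π}

theorem run_univ_of_left {k n m : ℕ} (h : sigmaGLeft k n m = Set.univ) : Run k n m = Set.univ := by
  rw [Set.eq_univ_iff_forall] at h ⊢
  intro π
  obtain ⟨g, hg, hp⟩ := h π
  refine ⟨fun t => if ht : t < m then g ⟨t, ht⟩ else 1, ?_, ?_⟩
  · intro t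
    by_cases ht : t < m
    · simp only [dif_pos ht]
      exact hg _
    · simp only [dif_neg ht]
      exact one_mem k n
  · rw [← ofFn_left, hp]

theorem run_univ_of_right {k n m : ℕ} (h : sigmaG k n m = Set.univ) : Run k n m = Set.univ := by
  rw [Set.eq_univ_iff_forall] at h ⊢
  intro π
  obtain ⟨g, hg, hp⟩ := h (shuffle k n * π * (shuffle k n)⁻¹)
  refine ⟨fun t => if ht : m - 1 - t < m then g ⟨m - 1 - t, ht⟩ else 1, ?_, ?_⟩
  · intro t
    by_cases ht : m - 1 - t < m
    · simp only [dif_pos ht]
      exact hg _
    · simp only [dif_neg ht]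
      exact one_mem k n
  · rw [ofFn_right] at hp
    exact mul_left_cancel (mul_right_cancel hp)

/-- **The shuffle-exchange conjecture `d*(k,n) = 2n - 1` is false for all `k ≥ 3`, `n ≥ 3`.**
If every permutation of the words of length `n ≥ 3` over `k ≥ 3` letters is a product
`σ g_1 σ g_2 ⋯ σ g_m`, then `m ≥ 2n`, whichever way products are read. -/
theorem result (k n m : ℕ) (hk : 3 ≤ k) (hn : 3 ≤ n)
    (h : sigmaG k n m = Set.univ ∨ sigmaGLeft k n m = Set.univ) : 2 * n ≤ m := by
  rcases h with h | h
  · exact Run_bound hk hn (run_univ_of_right h)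
  · exact Run_bound hk hn (run_univ_of_left h)

end Pool.Agent.Results.MP_c2a5b1_lc.AllLargerCases
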